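import Pool.Agent.Lib.MP_decac5_gt.Main

/-!
# A prime knot, one crossing change away from its mirror image, neither achiral nor slice
-/

set_option autoImplicit false

namespace Pool.Agent.Results.MP_decac5_gt.ChiralNotSlice

open Pool.Agent.Lib.MP_131179_gt Pool.Agent.Lib.MP_decac5_gt

/-- There is a prime knot which can be transformed into its mirror image by one crossing change, and
which is neither achiral nor algebraically slice. -/
theorem result : ∃ K : Link, IsPrime K ∧ ¬ AtLeastTwoComponents K ∧
    CrossingChange K (mirrorLink K) ∧ K ≠ mirrorLink K ∧ ¬ AlgSlice K :=
  exists_counterexample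

end Pool.Agent.Results.MP_decac5_gt.ChiralNotSlice
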